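import Pool.Agent.Helper88.SU.Defs

/-! Mean square of the exponential sum over the primes at reduced fractions: one block. -/

set_option autoImplicit false

open Complex Filter Topology Set MeasureTheory

namespace Pool.Agent.Helper88.SU

open H385 H385.BV H385.PrimLS H385.FamLS H385.PrimLS2
open ArithmeticFunction (vonMangoldt)

theorem SS_be (N : ℕ) (θ : ℝ) : SS N (be 1 (bb N)) θ = (((Real.sqrt N)⁻¹ : ℝ) : ℂ) * SL N θ := by
  unfold SL SS
  rw [Finset.mul_sum]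
  refine Finset.sum_congr rfl fun n hn => ?_
  unfold be bb
  rw [if_pos (Nat.coprime_one_right n), if_pos hn]
  ring

theorem exp_half (a : ℝ) (ha : 0 < a) (ha1 : a ≤ 1 / 64) : Real.exp (a / 2) ≤ 1 + a := by
  have h5 := Real.exp_bound' (x := a / 2) (by positivity) (by linarith) (n := 2) (by norm_num)
  simp [Finset.sum_range_succ] at h5
  nlinarith

/-- numerical part -/
theorem numer' (a c2 C F lam L Br : ℝ) (ha : 0 < a) (ha1 : a ≤ 1 / 64) (hc2 : 0 < c2)
    (hC : 0 < C) (hlam : 1 ≤ lam) (hL : 1 ≤ L) (hlam2 : C ≤ a * c2 * lam)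
    (hBr : Br ≤ (1 + 17 * a) * L) (hF : F ≤ (c2 * lam + C) * Br) :
    F ≤ (1 + 64 * a) * (L * (c2 * lam)) := by
  have hcl : 0 < c2 * lam := by positivity
  have h1 : c2 * lam + C ≤ (1 + a) * (c2 * lam) := by nlinarith
  have h2 : (c2 * lam + C) * Br ≤ ((1 + a) * (c2 * lam)) * ((1 + 17 * a) * L) := by
    calc _ ≤ (c2 * lam + C) * ((1 + 17 * a) * L) := mul_le_mul_of_nonneg_left hBr (by positivity)
      _ ≤ _ := mul_le_mul_of_nonneg_right h1 (by positivity)
  have h3 : (1 + a) * (1 + 17 * a) ≤ 1 + 64 * a := by nlinarith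
  calc F ≤ _ := hF
    _ ≤ _ := h2
    _ = ((1 + a) * (1 + 17 * a)) * (L * (c2 * lam)) := by ring
    _ ≤ _ := mul_le_mul_of_nonneg_right h3 (by positivity)

theorem block (ε : ℝ) (hε : 0 < ε) (hε1 : ε ≤ 1) : ∃ K : ℝ, 1 ≤ K ∧ ∀ X Y N : ℕ,
    K ≤ X → K * X ≤ Y → K * Y ≤ N → (N : ℝ) ≤ (X : ℝ) ^ (2 - ε) →
    ∑ q ∈ Finset.Ioc X Y, (1 / (q : ℝ) ^ 2) * TS N q ≤
      (1 + ε) * (N * (Real.log Y * (c0 * Real.log ((Y : ℝ) / X)))) := by
  have hc0 : 0 < c0 := by unfold c0; positivity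
  set a : ℝ := ε / 64 with ha
  have ha0 : 0 < a := by positivity
  have ha1 : a ≤ 1 / 64 := by rw [ha]; linarith
  obtain ⟨C1, hC1, hden⟩ := farey_density_h 1 squarefree_one
  obtain ⟨C, hCdef⟩ : ∃ C : ℝ, C = C1 + 16 / a + 4 := ⟨_, rfl⟩
  have h16 : 0 < 16 / a := by positivity
  have hC : 0 < C := by rw [hCdef]; linarith
  have hC1C : C1 ≤ C := by rw [hCdef]; linarith
  obtain ⟨g, g1, g2, G, ρ, M, hB, hρ0, hρ1, hM1, hgain⟩ := gain_asymp a ha0 C hC
  obtain ⟨x0, hx0, hpsi⟩ := psi_bounds a ha0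
  -- X^ε large
  have hXε := (tendsto_rpow_atTop hε).eventually_ge_atTop (C + C ^ 2 + 7 / a)
  obtain ⟨x2, hx2⟩ := Filter.eventually_atTop.mp hXε
  set K2 : ℝ := Real.exp (C / (a * c0)) with hK2
  set K3 : ℝ := Real.exp (2 * C / (a * c0) + |Real.log (2 / ρ)| / a + 1) with hK3
  set K : ℝ := 3 + 1 / ρ + M + x0 + |x2| + K2 + K3 with hK
  have hK2p : 0 < K2 := Real.exp_pos _
  have hK3p : 0 < K3 := Real.exp_pos _
  have hPρ : 0 < 1 / ρ := by positivity
  have hx2a := abs_nonneg x2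
  refine ⟨K, by linarith, ?_⟩
  intro X Y N hX hXY hYN hNX
  have hK1 : 1 ≤ K := by linarith
  have hX1 : (1 : ℝ) ≤ X := by linarith
  have hX0 : (0 : ℝ) < X := by linarith
  have hXn : 1 ≤ X := by exact_mod_cast hX1
  have hXYr : (X : ℝ) ≤ Y := (le_mul_of_one_le_left hX0.le hK1).trans hXY
  have hXYn : X ≤ Y := by exact_mod_cast hXYr
  have hKY : K ≤ Y := by linarith
  have hY1 : (1 : ℝ) ≤ Y := by linarith
  have hY0 : (0 : ℝ) < Y := by linarith
  have hYNr : (Y : ℝ) ≤ N := (le_mul_of_one_le_left hY0.le hK1).trans hYN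
  have hKN : K ≤ N := by linarith
  have hN1 : (1 : ℝ) ≤ N := by linarith
  have hN0 : (0 : ℝ) < N := by linarith
  have hNn : 1 ≤ N := by exact_mod_cast hN1
  -- powers
  have hpow := hx2 (X : ℝ) (by
    have := le_abs_self x2
    linarith)
  have hXX : (X : ℝ) ^ (2 - ε) * (X : ℝ) ^ ε = (X : ℝ) ^ 2 := by
    rw [← Real.rpow_add hX0, ← Real.rpow_natCast]
    congr 1
    push_cast
    ring
  have hNV : (N : ℝ) * (X : ℝ) ^ ε ≤ (X : ℝ) ^ 2 := by
    rw [← hXX]
    exact mul_le_mul_of_nonneg_right hNX (by positivity)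
  have h7a : 0 < 7 / a := by positivity
  have hC2n := sq_nonneg C
  have hCε : C ≤ (X : ℝ) ^ ε := by linarith only [hpow, h7a, hC2n]
  have hC2ε : C ^ 2 ≤ (X : ℝ) ^ ε := by linarith only [hpow, h7a, hC2n, hC]
  have haε : 7 / a ≤ (X : ℝ) ^ ε := by linarith only [hpow, h7a, hC2n, hC]
  -- the parameter R
  set R : ℕ := ⌊ρ * N / Y⌋₊ with hR
  have hRle : (R : ℝ) ≤ ρ * N / Y := Nat.floor_le (by positivity)
  have hRY : (R : ℝ) * Y ≤ ρ * N := by rwa [le_div_iff₀ hY0] at hRle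
  have hPY : 1 / ρ * Y ≤ N := by
    refine le_trans (mul_le_mul_of_nonneg_right ?_ hY0.le) hYN
    linarith
  have hPq : ((1 : ℕ) : ℝ) ≤ ρ * N / Y := by
    rw [le_div_iff₀ hY0]
    have := mul_le_mul_of_nonneg_left hPY hρ0.le
    calc ((1 : ℕ) : ℝ) * Y = ρ * (1 / ρ * Y) := by push_cast; field_simp
      _ ≤ ρ * N := this
  have hPR' : 1 ≤ R := Nat.le_floor hPq
  have hR1 : (1 : ℝ) ≤ R := by exact_mod_cast hPR'
  have hRlow : ρ * N / Y ≤ 2 * R := by
    have h1 := Nat.lt_floor_add_one (ρ * (N : ℝ) / Y)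
    rw [← hR] at h1
    linarith
  -- logs
  set L : ℝ := Real.log Y with hL
  set lN : ℝ := Real.log N with hlN
  set lam : ℝ := Real.log ((Y : ℝ) / X) with hlam
  have hL3 : 2 * C / (a * c0) + |Real.log (2 / ρ)| / a + 1 ≤ L := by
    rw [hL, Real.le_log_iff_exp_le hY0]
    linarith
  have hCac : 0 < 2 * C / (a * c0) := by positivity
  have hrr : 0 ≤ |Real.log (2 / ρ)| / a := by positivity
  have hL1 : 1 ≤ L := by linarith
  have hlN0 : 0 ≤ lN := Real.log_nonneg hN1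
  have hlN2 : lN ≤ 2 * L := by
    have h1 : (N : ℝ) ≤ (Y : ℝ) ^ 2 := by
      calc (N : ℝ) ≤ (X : ℝ) ^ (2 - ε) := hNX
        _ ≤ (X : ℝ) ^ (2 : ℝ) := Real.rpow_le_rpow_of_exponent_le hX1 (by linarith)
        _ = (X : ℝ) ^ 2 := by norm_num
        _ ≤ (Y : ℝ) ^ 2 := by gcongr
    have h2 := Real.log_le_log hN0 h1
    rw [Real.log_pow] at h2
    exact_mod_cast h2
  have hKXY : K ≤ (Y : ℝ) / X := by rw [le_div_iff₀ hX0]; exact hXY
  have hlam2 : C / (a * c0) ≤ lam := by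
    rw [hlam, Real.le_log_iff_exp_le (by positivity)]
    linarith
  have hlam1 : 1 ≤ lam := by
    rw [hlam, Real.le_log_iff_exp_le (by positivity)]
    have := Real.exp_one_lt_d9
    linarith
  have hlR : lN - L - |Real.log (2 / ρ)| ≤ Real.log R := by
    have h1 : Real.log (ρ * N / Y) ≤ Real.log (2 * R) := Real.log_le_log (by positivity) hRlow
    rw [Real.log_mul two_ne_zero (by positivity), Real.log_div (by positivity) hY0.ne',
      Real.log_mul hρ0.ne' hN0.ne'] at h1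
    have h2 : Real.log (2 / ρ) = Real.log 2 - Real.log ρ := Real.log_div two_ne_zero hρ0.ne'
    have h3 := le_abs_self (Real.log (2 / ρ))
    rw [h2] at h3 ⊢
    linarith
  have hlR0 : 0 ≤ Real.log R := Real.log_nonneg hR1
  have hr : |Real.log (2 / ρ)| ≤ a * L := by
    have : |Real.log (2 / ρ)| / a ≤ L := by linarith
    rw [div_le_iff₀ ha0] at this
    linarith
  -- the width
  set w : ℝ := 1 / (C * ρ * N) with hw
  have hw0 : 0 < w := by rw [hw]; positivity
  obtain ⟨Δ, hΔ0, hΔ, hF⟩ := plat 1 squarefree_one X Y N R ((X : ℝ) ^ 2) w a a C1 C (bb N)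
    (sc N g 0) (sc N g1 1) (sc N g2 2) hXn hXYn hPR' (sc_C2I hB N hNn) (one_le_pow₀ hX1) le_rfl hw0
    ha0 (by linarith) le_rfl hC1 (by
      push_cast
      have : (4 : ℝ) * 1 / a ≤ 16 / a := by gcongr; norm_num
      rw [hCdef]
      linarith) (by push_cast; rw [hCdef]; linarith) (by rw [hCdef]; linarith) (by
      calc C * R * Y = C * (R * Y) := by ring
        _ ≤ C * (ρ * N) := mul_le_mul_of_nonneg_left hRY hC.le
        _ ≤ C * (1 * N) := by gcongr
        _ = N * C := by ring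
        _ ≤ N * (X : ℝ) ^ ε := mul_le_mul_of_nonneg_left hCε hN0.le
        _ ≤ (X : ℝ) ^ 2 := hNV) (by
      rw [hw]
      calc C * (1 / (C * ρ * N)) * R * Y = (R * Y) / (ρ * N) := by field_simp
        _ ≤ 1 := by rw [div_le_one (by positivity)]; exact hRY) (by
      rw [hw, mul_one_div, le_div_iff₀ (by positivity)]
      calc C * (C * ρ * N) = C ^ 2 * (ρ * N) := by ring
        _ ≤ C ^ 2 * (1 * N) := by gcongr
        _ = N * C ^ 2 := by ring
        _ ≤ N * (X : ℝ) ^ ε := mul_le_mul_of_nonneg_left hC2ε hN0.le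
        _ ≤ (X : ℝ) ^ 2 := hNV) hden
  have hΔ' : Δ = c0 * lam + C1 := by
    rw [hΔ, hlam]
    simp only [Nat.primeFactors_one, Finset.prod_empty, Nat.cast_one, Real.log_one, zero_add,
      mul_one]
  have hfun : ∑ q ∈ Finset.Ioc X (1 * Y), (hP 1 q / (q : ℝ) ^ 2) *
        ∑ c ∈ (Finset.range q).filter (fun c => Nat.Coprime c q),
          ‖SS N (be 1 (bb N)) ((c : ℝ) / q)‖ ^ 2 =
      (N : ℝ)⁻¹ * ∑ q ∈ Finset.Ioc X Y, (1 / (q : ℝ) ^ 2) * TS N q := by
    rw [one_mul, Finset.mul_sum]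
    refine Finset.sum_congr rfl fun q _ => ?_
    have e1 : hP 1 q = 1 := by unfold hP; simp
    rw [e1]
    unfold TS
    rw [mul_left_comm, Finset.mul_sum (s := (Finset.range q).filter (fun c => Nat.Coprime c q))
      (a := (N : ℝ)⁻¹)]
    congr 1
    refine Finset.sum_congr rfl fun c _ => ?_
    rw [SS_be, norm_mul, mul_pow, Complex.norm_real, Real.norm_of_nonneg (by positivity), inv_pow,
      Real.sq_sqrt hN0.le]
  rw [hfun] at hF
  -- the bracket
  have hex : Real.exp (Real.pi * N / (X : ℝ) ^ 2) ≤ 1 + a := by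
    have hX2 : (0 : ℝ) < (X : ℝ) ^ 2 := by positivity
    have h1 : Real.pi * N / (X : ℝ) ^ 2 ≤ a / 2 := by
      rw [div_le_iff₀ hX2]
      have h2 : 7 / a * N ≤ (X : ℝ) ^ 2 := by
        refine le_trans ?_ hNV
        rw [mul_comm]
        exact mul_le_mul_of_nonneg_left haε hN0.le
      have h3 := mul_le_mul_of_nonneg_left h2 (by positivity : 0 ≤ a / 2)
      have h4 : a / 2 * (7 / a * N) = 3.5 * N := by field_simp; norm_num
      rw [h4] at h3
      have h5 : Real.pi ≤ 3.5 := by linarith only [Real.pi_lt_d2]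
      exact (mul_le_mul_of_nonneg_right h5 hN0.le).trans h3
    exact (Real.exp_le_exp.mpr h1).trans (exp_half a ha0 ha1)
  have hg := hgain N R Y (by linarith) (by linarith)
    (hRY.trans (mul_le_of_le_one_left hN0.le hρ1)) (by linarith)
  have hps := (hpsi (N : ℝ) (by linarith)).2
  have hBr := brac a L lN (Real.log R) (Real.exp (Real.pi * N / (X : ℝ) ^ 2)) (Chebyshev.psi N / N)
    (gain N R w (fun n => (vonMangoldt n : ℂ) * bb N n) (sc N g 0) (sc N g2 2))
    |Real.log (2 / ρ)| ha0 ha1 (by linarith) hlN0 hlN2 (Real.exp_pos _).le hex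
    (div_nonneg (Chebyshev.psi_nonneg _) hN0.le) (by rw [div_le_iff₀ hN0]; exact hps) hg hlR0 hlR
    hr _ (sum_sq_bb N hNn)
  rw [hΔ'] at hF
  have hfin := numer' a c0 C1 _ lam L _ ha0 ha1 hc0 hC1 hlam1 hL1 (by
      rw [div_le_iff₀ (by positivity)] at hlam2
      linarith) hBr hF
  have h64 : 1 + 64 * a = 1 + ε := by rw [ha]; ring
  rw [h64, inv_mul_le_iff₀ hN0] at hfin
  calc _ ≤ _ := hfin
    _ = _ := by ring

end Pool.Agent.Helper88.SU
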