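import Pool.Graph.R_seed8.H385R7.BV6

/-! Mean square of the exponential sum over the primes at reduced fractions: definitions. -/

set_option autoImplicit false

open Complex Filter Topology Set MeasureTheory

namespace Pool.Agent.Helper88.SU

open H385 H385.BV
open ArithmeticFunction (vonMangoldt)

/-- the exponential sum over the primes -/
noncomputable def SL (N : ℕ) (θ : ℝ) : ℂ := SS N (fun n => (vonMangoldt n : ℂ)) θ

/-- the sum over the fractions with denominator exactly `q` -/
noncomputable def TS (N q : ℕ) : ℝ :=
  ∑ c ∈ (Finset.range q).filter (fun c => Nat.Coprime c q), ‖SL N ((c : ℝ) / q)‖ ^ 2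

theorem TS_nonneg (N q : ℕ) : 0 ≤ TS N q := Finset.sum_nonneg fun _ _ => sq_nonneg _

end Pool.Agent.Helper88.SU
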