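import Pool.Agent.Helper88.LC.Mean
import Pool.Agent.Helper88.LC.Bess
import Pool.Agent.Helper88.SU.Defs

/-! Reduction of the large conductor part to the exponential sums at reduced fractions. -/

set_option autoImplicit false

open Finset

namespace Pool.Agent.Helper88.SU

open Pool.Agent.Helper88.LC
open ArithmeticFunction (vonMangoldt)

theorem TQ_eq (N q : ℕ) : TQ N q (fun x => ‖ft N (⇑vonMangoldt) x‖ ^ 2) = TS N q := by
  unfold TQ TS
  refine sum_congr rfl fun c _ => ?_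
  have e : ft N (⇑vonMangoldt) ((c : ℝ) / q) = SL N ((c : ℝ) / q) := by
    unfold ft SL H385.SS
    rw [Icc_one_eq]
    refine sum_congr rfl fun n _ => ?_
    congr 1
    unfold Pool.Agent.E8helper88.ee H385.ee
    push_cast
    congr 1
    ring
  simp only [e]

/-- the weighted sum over `k` is a sum over `m` and the denominators -/
theorem den (X Y N D : ℕ) (hX : 1 ≤ X) (hD : 1 ≤ D) :
    ∑ k ∈ Ioc X Y, (1 / (k : ℝ)) * VV N k D (⇑vonMangoldt) ≤
      ∑ m ∈ Icc 1 (Y / D), (1 / (m : ℝ) ^ 2) *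
        ∑ q ∈ (Ioc (X / m) (Y / m)).filter (fun q => D ≤ q), (1 / (q : ℝ) ^ 2) * TS N q := by
  have h1 : ∀ k ∈ Ioc X Y, (1 / (k : ℝ)) * VV N k D (⇑vonMangoldt) ≤
      ∑ q ∈ k.divisors.filter (fun q => D ≤ q), (1 / (k : ℝ) ^ 2) * TS N q := by
    intro k hk
    rw [mem_Ioc] at hk
    have hk0 : 0 < k := by omega
    have hkr : (0 : ℝ) < k := by exact_mod_cast hk0
    have h2 := VV_le_UU N k D hk0 (⇑vonMangoldt)
    have h3 : UU N k D (⇑vonMangoldt) =
        (1 / (k : ℝ)) * ∑ q ∈ k.divisors.filter (fun q => D ≤ q), TS N q := by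
      unfold UU
      rw [group_den k hk0 (fun q => D ≤ q) (fun x => ‖ft N (⇑vonMangoldt) x‖ ^ 2) N]
      congr 1
      exact sum_congr rfl fun q _ => TQ_eq N q
    calc (1 / (k : ℝ)) * VV N k D (⇑vonMangoldt) ≤ (1 / (k : ℝ)) * UU N k D (⇑vonMangoldt) :=
          mul_le_mul_of_nonneg_left h2 (by positivity)
      _ = _ := by
          rw [h3, mul_sum, mul_sum]
          refine sum_congr rfl fun q _ => ?_
          field_simp
  refine (sum_le_sum h1).trans (le_of_eq ?_)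
  have e2 : ∀ m ∈ Icc 1 (Y / D), (1 / (m : ℝ) ^ 2) *
        ∑ q ∈ (Ioc (X / m) (Y / m)).filter (fun q => D ≤ q), (1 / (q : ℝ) ^ 2) * TS N q =
      ∑ q ∈ (Ioc (X / m) (Y / m)).filter (fun q => D ≤ q), (1 / ((m * q : ℕ) : ℝ) ^ 2) * TS N q := by
    intro m _
    rw [mul_sum]
    refine sum_congr rfl fun q _ => ?_
    push_cast
    rw [← mul_assoc]
    congr 1
    rw [mul_pow, one_div_mul_one_div]
  rw [sum_congr rfl e2, sum_sigma', sum_sigma']
  refine sum_bij' (fun s _ => (⟨s.1 / s.2, s.2⟩ : Σ _ : ℕ, ℕ))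
    (fun s _ => (⟨s.1 * s.2, s.2⟩ : Σ _ : ℕ, ℕ)) ?_ ?_ ?_ ?_ ?_
  · rintro ⟨k, q⟩ h
    simp only [mem_sigma, mem_filter, mem_Ioc, Nat.mem_divisors, mem_Icc] at h ⊢
    obtain ⟨⟨hXk, hkY⟩, ⟨hqk, hk0⟩, hDq⟩ := h
    have hq0 : 0 < q := by omega
    obtain ⟨m, rfl⟩ := hqk
    rw [Nat.mul_div_cancel_left m hq0]
    have hm : 1 ≤ m := by
      rcases Nat.eq_zero_or_pos m with h | h
      · subst h; simp at hk0
      · exact h
    refine ⟨⟨hm, ?_⟩, ⟨?_, ?_⟩, hDq⟩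
    · rw [Nat.le_div_iff_mul_le (by omega)]
      calc m * D ≤ m * q := Nat.mul_le_mul_left _ hDq
        _ = q * m := Nat.mul_comm _ _
        _ ≤ Y := hkY
    · rw [Nat.div_lt_iff_lt_mul (by omega)]
      exact hXk
    · rw [Nat.le_div_iff_mul_le (by omega)]
      exact hkY
  · rintro ⟨m, q⟩ h
    simp only [mem_sigma, mem_filter, mem_Ioc, Nat.mem_divisors, mem_Icc] at h ⊢
    obtain ⟨⟨hm, hmY⟩, ⟨hX', hY'⟩, hDq⟩ := h
    rw [Nat.div_lt_iff_lt_mul (by omega)] at hX'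
    rw [Nat.le_div_iff_mul_le (by omega)] at hY'
    have e : m * q = q * m := Nat.mul_comm _ _
    refine ⟨⟨by omega, by omega⟩, ⟨Dvd.intro_left m rfl, ?_⟩, hDq⟩
    have : 0 < m * q := Nat.mul_pos (by omega) (by omega)
    omega
  · rintro ⟨k, q⟩ h
    simp only [mem_sigma, mem_filter, mem_Ioc, Nat.mem_divisors] at h
    simp only [Nat.div_mul_cancel h.2.1.1]
  · rintro ⟨m, q⟩ h
    simp only [mem_sigma, mem_filter, mem_Ioc, mem_Icc] at h
    have hq0 : 0 < q := by omega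
    simp only [Nat.mul_div_cancel _ hq0]
  · rintro ⟨k, q⟩ h
    simp only [mem_sigma, mem_filter, mem_Ioc, Nat.mem_divisors] at h
    simp only [Nat.div_mul_cancel h.2.1.1]

/-- the large sieve for the primes at the reduced fractions with denominators in an interval -/
theorem ls_block (N A B : ℕ) (a₀ : ℝ) (ha₀ : 0 < a₀) (h : ∀ q, A < q → a₀ ≤ q) :
    ∑ q ∈ Ioc A B, (1 / (q : ℝ) ^ 2) * TS N q ≤
      (1 / a₀ ^ 2) * (6 * (N + (B : ℝ) ^ 2) * ∑ n ∈ Ioc 0 N, vonMangoldt n ^ 2) := by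
  have h1 := ls N B (⇑vonMangoldt)
  simp_rw [TQ_eq] at h1
  calc ∑ q ∈ Ioc A B, (1 / (q : ℝ) ^ 2) * TS N q ≤ ∑ q ∈ Ioc A B, (1 / a₀ ^ 2) * TS N q := by
        refine sum_le_sum fun q hq => ?_
        have h2 := h q (mem_Ioc.1 hq).1
        have h3 := TS_nonneg N q
        have h4 : 1 / (q : ℝ) ^ 2 ≤ 1 / a₀ ^ 2 :=
          one_div_le_one_div_of_le (by positivity) (by gcongr)
        exact mul_le_mul_of_nonneg_right h4 h3
    _ = (1 / a₀ ^ 2) * ∑ q ∈ Ioc A B, TS N q := by rw [mul_sum]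
    _ ≤ (1 / a₀ ^ 2) * ∑ q ∈ Icc 1 B, TS N q := by
        refine mul_le_mul_of_nonneg_left ?_ (by positivity)
        refine sum_le_sum_of_subset_of_nonneg ?_ fun q _ _ => TS_nonneg N q
        intro q hq
        rw [mem_Ioc] at hq
        rw [mem_Icc]
        omega
    _ ≤ _ := mul_le_mul_of_nonneg_left h1 (by positivity)

end Pool.Agent.Helper88.SU
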