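import Pool.Agent.Helper88.SU.Fin
import Pool.Agent.Helper88.LC.Fin

/-! The mean deviation of the large conductor part of the variance. -/

set_option autoImplicit false

open Finset

namespace Pool.Agent.Helper88.SU

open Pool.Agent.Helper88.LC H385 H385.BV
open ArithmeticFunction (vonMangoldt)

open Classical in
/-- reciprocals of the exceptional moduli, dyadic blocks -/
theorem dyadic (P : ℕ → Prop) (κ : ℝ) (hκ : 0 < κ) (X Y : ℕ) (hX : 1 ≤ X)
    (h : ∀ K : ℕ, X ≤ K → K ≤ Y → (((Ioc K (2 * K)).filter P).card : ℝ) ≤ (K : ℝ) ^ (1 - κ)) :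
    ∑ k ∈ (Ioc X Y).filter P, 1 / (k : ℝ) ≤ (X : ℝ) ^ (-κ) / (1 - 2 ^ (-κ)) := by
  have hr : (2 : ℝ) ^ (-κ) < 1 := Real.rpow_lt_one_of_one_lt_of_neg one_lt_two (by linarith)
  have hr0 : (0 : ℝ) < 2 ^ (-κ) := Real.rpow_pos_of_pos two_pos _
  have hd : (0 : ℝ) < 1 - 2 ^ (-κ) := by linarith
  have key : ∀ m Z : ℕ, Y - Z ≤ m → X ≤ Z →
      ∑ k ∈ (Ioc Z Y).filter P, 1 / (k : ℝ) ≤ (Z : ℝ) ^ (-κ) / (1 - 2 ^ (-κ)) := by
    intro m
    induction m with
    | zero =>
      intro Z h1 h2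
      have : Ioc Z Y = ∅ := Ioc_eq_empty (by omega)
      rw [this, filter_empty, sum_empty]
      positivity
    | succ m ih =>
      intro Z h1 h2
      have hZ1 : 1 ≤ Z := hX.trans h2
      have hZ0 : (0 : ℝ) < Z := by exact_mod_cast hZ1
      by_cases hZY : Z < Y
      · have hsub : (Ioc Z Y).filter P ⊆ (Ioc Z (2 * Z)).filter P ∪ (Ioc (2 * Z) Y).filter P := by
          intro k hk
          rw [mem_filter, mem_Ioc] at hk
          rw [mem_union, mem_filter, mem_filter, mem_Ioc, mem_Ioc]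
          by_cases h3 : k ≤ 2 * Z
          · exact Or.inl ⟨⟨hk.1.1, h3⟩, hk.2⟩
          · exact Or.inr ⟨⟨by omega, hk.1.2⟩, hk.2⟩
        have hnn : ∀ s : Finset ℕ, 0 ≤ ∑ k ∈ s, 1 / (k : ℝ) := fun s =>
          sum_nonneg fun k _ => by positivity
        have h3 : ∑ k ∈ (Ioc Z Y).filter P, 1 / (k : ℝ) ≤
            ∑ k ∈ (Ioc Z (2 * Z)).filter P, 1 / (k : ℝ) +
            ∑ k ∈ (Ioc (2 * Z) Y).filter P, 1 / (k : ℝ) := by
          refine (sum_le_sum_of_subset_of_nonneg hsub fun k _ _ => by positivity).trans ?_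
          have := sum_union_inter (s₁ := (Ioc Z (2 * Z)).filter P) (s₂ := (Ioc (2 * Z) Y).filter P)
            (f := fun k : ℕ => 1 / (k : ℝ))
          have h4 := hnn ((Ioc Z (2 * Z)).filter P ∩ (Ioc (2 * Z) Y).filter P)
          linarith
        have h4 : ∑ k ∈ (Ioc Z (2 * Z)).filter P, 1 / (k : ℝ) ≤ (Z : ℝ) ^ (-κ) := by
          calc ∑ k ∈ (Ioc Z (2 * Z)).filter P, 1 / (k : ℝ) ≤
                ∑ k ∈ (Ioc Z (2 * Z)).filter P, 1 / (Z : ℝ) := by
                refine sum_le_sum fun k hk => ?_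
                rw [mem_filter, mem_Ioc] at hk
                exact one_div_le_one_div_of_le hZ0 (by exact_mod_cast hk.1.1.le)
            _ = (((Ioc Z (2 * Z)).filter P).card : ℝ) * (1 / Z) := by rw [sum_const, nsmul_eq_mul]
            _ ≤ (Z : ℝ) ^ (1 - κ) * (1 / Z) :=
                mul_le_mul_of_nonneg_right (h Z h2 hZY.le) (by positivity)
            _ = (Z : ℝ) ^ (-κ) := by
                rw [mul_one_div, div_eq_iff hZ0.ne']
                have : (Z : ℝ) ^ (-κ) * Z = (Z : ℝ) ^ (-κ) * (Z : ℝ) ^ (1 : ℝ) := by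
                  rw [Real.rpow_one]
                rw [this, ← Real.rpow_add hZ0]
                congr 1
                ring
        have h5 := ih (2 * Z) (by omega) (by omega)
        have h6 : (((2 * Z : ℕ) : ℝ)) ^ (-κ) = 2 ^ (-κ) * (Z : ℝ) ^ (-κ) := by
          push_cast
          exact Real.mul_rpow two_pos.le hZ0.le
        rw [h6] at h5
        refine (h3.trans (add_le_add h4 h5)).trans (le_of_eq ?_)
        field_simp
        ring
      · have : Ioc Z Y = ∅ := Ioc_eq_empty hZY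
        rw [this, filter_empty, sum_empty]
        positivity
  exact key (Y - X) X le_rfl le_rfl

/-- absolute value from an upper bound for the mean and lower bounds -/
theorem absdev (s : Finset ℕ) (P : ℕ → Prop) [DecidablePred P] (w a b : ℕ → ℝ) (U B : ℝ)
    (hw : ∀ k ∈ s, 0 ≤ w k) (hb : ∀ k ∈ s, 0 ≤ b k) (hU : ∑ k ∈ s, w k * a k ≤ U)
    (hg : ∀ k ∈ s, ¬ P k → -b k ≤ a k) (hB : ∀ k ∈ s, -B ≤ a k) (hB0 : 0 ≤ B) :
    ∑ k ∈ s, w k * |a k| ≤ U + 2 * ∑ k ∈ s, w k * b k + 2 * B * ∑ k ∈ s.filter P, w k := by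
  have h1 : ∀ k ∈ s, w k * |a k| ≤ w k * a k + 2 * (w k * b k) + (if P k then 2 * B * w k else 0) := by
    intro k hk
    have h2 := hw k hk
    have h3 := hb k hk
    by_cases hP : P k
    · rw [if_pos hP]
      have h4 := hB k hk
      have h5 : |a k| ≤ a k + 2 * B := by
        rw [abs_le]
        constructor <;> linarith
      have h6 := mul_le_mul_of_nonneg_left h5 h2
      have h7 : 0 ≤ w k * b k := mul_nonneg h2 h3
      linarith
    · rw [if_neg hP]
      have h4 := hg k hk hP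
      have h5 : |a k| ≤ a k + 2 * b k := by
        rw [abs_le]
        constructor <;> linarith
      have h6 := mul_le_mul_of_nonneg_left h5 h2
      linarith
  calc ∑ k ∈ s, w k * |a k| ≤
        ∑ k ∈ s, (w k * a k + 2 * (w k * b k) + (if P k then 2 * B * w k else 0)) := sum_le_sum h1
    _ = ∑ k ∈ s, w k * a k + 2 * ∑ k ∈ s, w k * b k + 2 * B * ∑ k ∈ s.filter P, w k := by
        rw [sum_add_distrib, sum_add_distrib, ← mul_sum, ← sum_filter, ← mul_sum]
    _ ≤ _ := by linarith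

theorem VV_nonneg (N k D : ℕ) (f : ℕ → ℝ) : 0 ≤ VV N k D f := by
  unfold VV
  exact mul_nonneg (by positivity) (sum_nonneg fun _ _ => sq_nonneg _)

/-- **mean deviation** -/
theorem dev (hblk : ∀ e : ℝ, 0 < e → e ≤ 1 → ∃ K : ℝ, 1 ≤ K ∧ SBlk e K)
    (ε : ℝ) (hε : 0 < ε) (hε1 : ε ≤ 1) : ∃ T : ℝ, 1 ≤ T ∧
    ∀ X Y N D : ℕ, T ≤ X → T * X ≤ Y → T * Y ≤ N → (N : ℝ) ≤ (X : ℝ) ^ (2 - ε) → T * N ≤ D * X →
    D ^ 2 ≤ N →
    ∑ k ∈ Ioc X Y, (1 / (k : ℝ)) * |VV N k D (⇑vonMangoldt) - N * Real.log k| ≤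
      2 * N * ∑ k ∈ Ioc X Y, (1 / (k : ℝ)) * (Real.log ((N : ℝ) / k) + ε * Real.log N) := by
  set e := ε / 4 with hedef
  have he : 0 < e := by positivity
  have he1 : e ≤ 1 := by linarith
  obtain ⟨T₁, hT₁, hm⟩ := main hblk e he he1
  obtain ⟨κ, hκ, N₀, hf⟩ := Pool.Agent.Helper88.LC.fin e he
  have hr : (2 : ℝ) ^ (-κ) < 1 := Real.rpow_lt_one_of_one_lt_of_neg one_lt_two (by linarith)
  have hd : (0 : ℝ) < 1 - 2 ^ (-κ) := by linarith
  -- the threshold for the exceptional moduli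
  obtain ⟨T₂, hT₂, hx⟩ : ∃ T₂ : ℝ, 1 ≤ T₂ ∧ ∀ x : ℝ, T₂ ≤ x → x ^ (-κ) / (1 - 2 ^ (-κ)) ≤ e := by
    have h1 := tendsto_rpow_neg_atTop hκ
    have h2 : ∀ᶠ x : ℝ in Filter.atTop, x ^ (-κ) < e * (1 - 2 ^ (-κ)) :=
      h1.eventually_lt_const (by positivity)
    obtain ⟨A, hA⟩ := Filter.eventually_atTop.mp h2
    refine ⟨max 1 A, le_max_left _ _, fun x hxA => ?_⟩
    rw [div_le_iff₀ hd]
    exact (hA x ((le_max_right _ _).trans hxA)).le
  refine ⟨max (max T₁ T₂) (max N₀ 8), hT₁.trans ((le_max_left _ _).trans (le_max_left _ _)), ?_⟩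
  intro X Y N D hX hXY hYN hNX hDX hDN
  have b1 : T₁ ≤ max (max T₁ T₂) (max N₀ 8) := (le_max_left _ _).trans (le_max_left _ _)
  have b2 : T₂ ≤ max (max T₁ T₂) (max (N₀ : ℝ) 8) := (le_max_right _ _).trans (le_max_left _ _)
  have b3 : (N₀ : ℝ) ≤ max (max T₁ T₂) (max N₀ 8) := (le_max_left _ _).trans (le_max_right _ _)
  have b4 : (8 : ℝ) ≤ max (max T₁ T₂) (max (N₀ : ℝ) 8) := (le_max_right _ _).trans (le_max_right _ _)
  set T := max (max T₁ T₂) (max (N₀ : ℝ) 8) with hTdef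
  have hX8 : (8 : ℝ) ≤ X := b4.trans hX
  have hX0 : (0 : ℝ) < X := by linarith
  have hX1 : 1 ≤ X := by exact_mod_cast (by linarith : (1 : ℝ) ≤ X)
  have hT1 : (1 : ℝ) ≤ T := by linarith
  have hXYr : (X : ℝ) ≤ Y := by nlinarith
  have hXYn : X ≤ Y := by exact_mod_cast hXYr
  have hYNr : (Y : ℝ) ≤ N := by
    have : (0 : ℝ) ≤ Y := Nat.cast_nonneg _
    nlinarith
  have hYNn : Y ≤ N := by exact_mod_cast hYNr
  have hN1 : (1 : ℝ) ≤ N := by linarith
  have hN0 : (0 : ℝ) < N := by linarith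
  have hlN : 0 ≤ Real.log N := Real.log_nonneg hN1
  have hDX' : (N : ℝ) ≤ D * X := by
    have : (1 : ℝ) * N ≤ T * N := mul_le_mul_of_nonneg_right hT1 hN0.le
    linarith
  -- the range of the lower bound
  have hNe : (N : ℝ) ^ (1 / 2 + e) ≤ X := by
    have hX1r : (1 : ℝ) ≤ X := by linarith
    calc (N : ℝ) ^ (1 / 2 + e) ≤ ((X : ℝ) ^ (2 - ε)) ^ (1 / 2 + e) :=
          Real.rpow_le_rpow hN0.le hNX (by positivity)
      _ = (X : ℝ) ^ ((2 - ε) * (1 / 2 + e)) := (Real.rpow_mul hX0.le _ _).symm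
      _ ≤ (X : ℝ) ^ (1 : ℝ) := Real.rpow_le_rpow_of_exponent_le hX1r (by
          rw [hedef]
          nlinarith)
      _ = X := Real.rpow_one _
  -- the upper bound for the mean
  have hEX : EX X Y ≤ Real.log N * ∑ k ∈ Ioc X Y, 1 / (k : ℝ) := by
    unfold EX
    rw [mul_sum]
    refine sum_le_sum fun k hk => ?_
    rw [mem_Ioc] at hk
    have hk0 : (0 : ℝ) < k := by exact_mod_cast (by omega : 0 < k)
    rw [mul_comm]
    refine mul_le_mul_of_nonneg_right ?_ (by positivity)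
    exact Real.log_le_log hk0 (by exact_mod_cast hk.2.trans hYNn)
  have hU : ∑ k ∈ Ioc X Y, (1 / (k : ℝ)) * (VV N k D (⇑vonMangoldt) - N * Real.log k) ≤
      e * N * (Real.log N * ∑ k ∈ Ioc X Y, 1 / (k : ℝ)) := by
    have h1 := hm X Y N D (b1.trans hX)
      ((mul_le_mul_of_nonneg_right b1 hX0.le).trans hXY)
      ((mul_le_mul_of_nonneg_right b1 (Nat.cast_nonneg _)).trans hYN)
      (hNX.trans (Real.rpow_le_rpow_of_exponent_le (by linarith) (by linarith)))
      ((mul_le_mul_of_nonneg_right b1 hN0.le).trans hDX)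
    have h2 : ∑ k ∈ Ioc X Y, (1 / (k : ℝ)) * (VV N k D (⇑vonMangoldt) - N * Real.log k) =
        LG X Y N D - N * EX X Y := by
      unfold LG EX
      rw [mul_sum, ← sum_sub_distrib]
      refine sum_congr rfl fun k _ => by ring
    rw [h2]
    have h3 : e * N * EX X Y ≤ e * N * (Real.log N * ∑ k ∈ Ioc X Y, 1 / (k : ℝ)) :=
      mul_le_mul_of_nonneg_left hEX (by positivity)
    nlinarith
  -- the sum of the reciprocals is at least one
  have hS1 : (1 : ℝ) ≤ ∑ k ∈ Ioc X Y, 1 / (k : ℝ) := by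
    have h1 := inv_sum X Y hX1 hXYn
    have h2 : 1 / (X : ℝ) ≤ 1 / 8 := one_div_le_one_div_of_le (by norm_num) hX8
    have h3 : Real.log 8 ≤ Real.log ((Y : ℝ) / X) := by
      apply Real.log_le_log (by norm_num)
      rw [le_div_iff₀ hX0]
      exact (mul_le_mul_of_nonneg_right b4 hX0.le).trans hXY
    have h4 : Real.log 8 = 3 * Real.log 2 := by
      rw [show (8 : ℝ) = 2 ^ (3 : ℕ) by norm_num, Real.log_pow]
      norm_num
    have h5 := Real.log_two_gt_d9
    linarith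
  classical
  have hexc := dyadic (fun k => VV N k D (⇑vonMangoldt) <
      N * (2 * Real.log k - Real.log N - e * Real.log N)) κ hκ X Y hX1 (fun K hK1 hK2 => by
    have hK1r : (X : ℝ) ≤ K := by exact_mod_cast hK1
    have hXN0 : N₀ ≤ N := by
      have : (N₀ : ℝ) ≤ N := by linarith
      exact_mod_cast this
    have h1 := (hf N K D hXN0 (hNe.trans hK1r) (hK2.trans hYNn) hDN (by
      have : (N : ℝ) ≤ D * K := hDX'.trans (mul_le_mul_of_nonneg_left hK1r (Nat.cast_nonneg _))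
      exact_mod_cast this)).1
    convert h1 using 3)
  have hexc2 := hexc.trans (hx X (b2.trans hX))
  have hfin := absdev (Ioc X Y) (fun k => VV N k D (⇑vonMangoldt) <
      N * (2 * Real.log k - Real.log N - e * Real.log N)) (fun k => 1 / (k : ℝ))
    (fun k => VV N k D (⇑vonMangoldt) - N * Real.log k)
    (fun k => N * (Real.log ((N : ℝ) / k) + e * Real.log N))
    (e * N * (Real.log N * ∑ k ∈ Ioc X Y, 1 / (k : ℝ))) (N * Real.log N)
    (fun k _ => by positivity)
    (fun k hk => by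
      rw [mem_Ioc] at hk
      have hk0 : (0 : ℝ) < k := by exact_mod_cast (by omega : 0 < k)
      have : 0 ≤ Real.log ((N : ℝ) / k) := Real.log_nonneg (by
        rw [le_div_iff₀ hk0, one_mul]
        exact_mod_cast hk.2.trans hYNn)
      positivity)
    hU
    (fun k hk hP => by
      rw [mem_Ioc] at hk
      have hk0 : (0 : ℝ) < k := by exact_mod_cast (by omega : 0 < k)
      have h1 := not_lt.mp hP
      have h2 : Real.log ((N : ℝ) / k) = Real.log N - Real.log k :=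
        Real.log_div hN0.ne' hk0.ne'
      simp only [h2]
      nlinarith)
    (fun k hk => by
      rw [mem_Ioc] at hk
      have hk0 : (0 : ℝ) < k := by exact_mod_cast (by omega : 0 < k)
      have h1 := VV_nonneg N k D (⇑vonMangoldt)
      have h2 : Real.log k ≤ Real.log N := Real.log_le_log hk0 (by exact_mod_cast hk.2.trans hYNn)
      have h3 : (N : ℝ) * Real.log k ≤ N * Real.log N := mul_le_mul_of_nonneg_left h2 hN0.le
      linarith)
    (by positivity)
  refine hfin.trans ?_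
  set S := ∑ k ∈ Ioc X Y, 1 / (k : ℝ) with hS
  set E := ∑ k ∈ (Ioc X Y).filter (fun k => VV N k D (⇑vonMangoldt) <
      N * (2 * Real.log k - Real.log N - e * Real.log N)), 1 / (k : ℝ) with hE
  have h1 : ∑ k ∈ Ioc X Y, 1 / (k : ℝ) * (N * (Real.log ((N : ℝ) / k) + e * Real.log N)) =
      N * (∑ k ∈ Ioc X Y, 1 / (k : ℝ) * Real.log ((N : ℝ) / k)) + N * (e * Real.log N) * S := by
    rw [hS, mul_sum, mul_sum, ← sum_add_distrib]
    refine sum_congr rfl fun k _ => by ring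
  have h2 : ∑ k ∈ Ioc X Y, 1 / (k : ℝ) * (Real.log ((N : ℝ) / k) + ε * Real.log N) =
      (∑ k ∈ Ioc X Y, 1 / (k : ℝ) * Real.log ((N : ℝ) / k)) + (ε * Real.log N) * S := by
    rw [hS, mul_sum, ← sum_add_distrib]
    refine sum_congr rfl fun k _ => by ring
  have h3 : 2 * (N * Real.log N) * E ≤ 2 * (N * Real.log N) * (e * S) := by
    apply mul_le_mul_of_nonneg_left _ (by positivity)
    have : e * 1 ≤ e * S := mul_le_mul_of_nonneg_left hS1 he.le
    linarith
  have h4 : 0 ≤ N * Real.log N * S := by positivity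
  have h5 : ε = 4 * e := by
    rw [hedef]
    ring
  rw [h1, h2, h5]
  have h6 : 0 ≤ e * (N * Real.log N * S) := by positivity
  nlinarith

end Pool.Agent.Helper88.SU
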