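import Pool.Agent.Helper88.SU.One

/-! The sharp upper bound for the part of the variance from the characters of large conductor. -/

set_option autoImplicit false

open Finset

namespace Pool.Agent.Helper88.SU

open Pool.Agent.Helper88.LC H385 H385.BV
open ArithmeticFunction (vonMangoldt)

/-- the sum over the moduli -/
noncomputable def LG (X Y N D : ℕ) : ℝ := ∑ k ∈ Ioc X Y, (1 / (k : ℝ)) * VV N k D (⇑vonMangoldt)

/-- the expected size -/
noncomputable def EX (X Y : ℕ) : ℝ := ∑ k ∈ Ioc X Y, (1 / (k : ℝ)) * Real.log k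

theorem numfin (e lam L LX R A B : ℝ) (he : 0 < e) (he1 : e ≤ 1 / 16) (hlam : 0 ≤ lam) (hL : 0 ≤ L)
    (hA : A ≤ (1 + e) ^ 2 * (L * lam)) (hB : B ≤ e * (L * lam)) (hLX : (1 - e) * L ≤ LX)
    (hR : LX * ((1 - e) * lam) ≤ R) : A + B ≤ (1 + 16 * e) * R := by
  have h0 : 0 ≤ L * lam := mul_nonneg hL hlam
  have h1 : ((1 - e) * L) * ((1 - e) * lam) ≤ R :=
    (mul_le_mul_of_nonneg_right hLX (mul_nonneg (by linarith) hlam)).trans hR
  have h2 : ((1 - e) * L) * ((1 - e) * lam) = (1 - e) ^ 2 * (L * lam) := by ring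
  rw [h2] at h1
  have h3 : (1 + 16 * e) * ((1 - e) ^ 2 * (L * lam)) ≤ (1 + 16 * e) * R :=
    mul_le_mul_of_nonneg_left h1 (by linarith)
  have h4 : ((1 + e) ^ 2 + e) * (L * lam) ≤ ((1 + 16 * e) * (1 - e) ^ 2) * (L * lam) := by
    refine mul_le_mul_of_nonneg_right ?_ h0
    nlinarith [sq_nonneg e, mul_pos he he]
  linarith

theorem low_EX (X Y : ℕ) (e : ℝ) (he : 0 < e) (hX : 1 ≤ X) (hXY : X ≤ Y) (hXe : 1 ≤ e * X)
    (hlam : 1 ≤ Real.log ((Y : ℝ) / X)) :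
    Real.log X * ((1 - e) * Real.log ((Y : ℝ) / X)) ≤ EX X Y := by
  have hX0 : (0 : ℝ) < X := by exact_mod_cast hX
  have hlX : 0 ≤ Real.log X := Real.log_nonneg (by exact_mod_cast hX)
  have h1 := inv_sum X Y hX hXY
  have h2 : 1 / (X : ℝ) ≤ e := by
    rw [div_le_iff₀ hX0]
    exact hXe
  have h3 : (1 - e) * Real.log ((Y : ℝ) / X) ≤ ∑ k ∈ Ioc X Y, 1 / (k : ℝ) := by nlinarith
  calc Real.log X * ((1 - e) * Real.log ((Y : ℝ) / X)) ≤
        Real.log X * ∑ k ∈ Ioc X Y, 1 / (k : ℝ) := mul_le_mul_of_nonneg_left h3 hlX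
    _ ≤ EX X Y := by
        unfold EX
        rw [mul_sum]
        refine sum_le_sum fun k hk => ?_
        rw [mem_Ioc] at hk
        have h4 : Real.log X ≤ Real.log k := Real.log_le_log hX0 (by exact_mod_cast hk.1.le)
        rw [mul_comm]
        exact mul_le_mul_of_nonneg_left h4 (by positivity)

theorem lam_sq (N : ℕ) (h : Chebyshev.psi N ≤ 2 * N) :
    ∑ n ∈ Ioc 0 N, vonMangoldt n ^ 2 ≤ 2 * N * Real.log N := by
  have h1 := lam_sq_le N
  rw [Icc_one_eq] at h1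
  have h2 : 0 ≤ Real.log N := Real.log_natCast_nonneg N
  calc _ ≤ Real.log N * Chebyshev.psi N := h1
    _ ≤ Real.log N * (2 * N) := mul_le_mul_of_nonneg_left h h2
    _ = _ := by ring

theorem short (hblk : ∀ e : ℝ, 0 < e → e ≤ 1 → ∃ K : ℝ, 1 ≤ K ∧ SBlk e K)
    (ε : ℝ) (hε : 0 < ε) (hε1 : ε ≤ 1) : ∃ (K : ℕ) (T : ℝ), 2 ≤ K ∧ 1 ≤ T ∧
    ∀ X Y N D : ℕ, T ≤ X → K * X ≤ Y → Y ≤ K * K * X → K * Y ≤ N →
    (N : ℝ) ≤ (X : ℝ) ^ (2 - ε) → T * N ≤ D * X →
    LG X Y N D ≤ (1 + ε) * (N * EX X Y) := by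
  set e : ℝ := ε / 16 with he
  have he0 : 0 < e := by positivity
  have he1 : e ≤ 1 / 16 := by rw [he]; linarith
  obtain ⟨K₁, hK₁, hb⟩ := hblk e he0 (by linarith)
  obtain ⟨x0, hx0, hpsi⟩ := psi_bounds 1 one_pos
  set K : ℕ := ⌈2 * K₁ + Real.exp (1 / e)⌉₊ with hK
  have hKr : 2 * K₁ + Real.exp (1 / e) ≤ K := Nat.le_ceil _
  have hexp : 0 < Real.exp (1 / e) := Real.exp_pos _
  have hexp1 : 1 ≤ Real.exp (1 / e) := Real.one_le_exp (by positivity)
  have hK2 : (2 : ℝ) ≤ K := by linarith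
  have hK0 : (0 : ℝ) < K := by linarith
  have hlK : 0 ≤ Real.log K := Real.log_nonneg (by linarith)
  set M : ℕ := ⌈48 * (K : ℝ) ^ 4 / e⌉₊ with hM
  have hMr : 48 * (K : ℝ) ^ 4 / e ≤ M := Nat.le_ceil _
  have hK4 : 0 < 48 * (K : ℝ) ^ 4 / e := by positivity
  have hM0 : (0 : ℝ) < M := by linarith
  have hM1 : 1 ≤ M := by exact_mod_cast hM0
  have hMe : (K : ℝ) ^ 4 / M ≤ e / 48 := by
    rw [div_le_iff₀ hM0]
    rw [div_le_iff₀ he0] at hMr
    linarith
  -- X^e large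
  obtain ⟨x2, hx2⟩ := Filter.eventually_atTop.mp
    ((tendsto_rpow_atTop he0).eventually_ge_atTop ((4 * (M : ℝ)) ^ 2))
  set T : ℝ := 48 * (K : ℝ) ^ 2 / e + 2 * M / e + 2 * M * K₁ + x0 + |x2| +
    Real.exp (2 * Real.log K / e) + 1 / e with hT
  have t1 : 0 < 48 * (K : ℝ) ^ 2 / e := by positivity
  have t2 : 0 < 2 * (M : ℝ) / e := by positivity
  have t3 : 0 < 2 * (M : ℝ) * K₁ := by positivity
  have t4 : 0 ≤ |x2| := abs_nonneg _
  have t5 : 0 < Real.exp (2 * Real.log K / e) := Real.exp_pos _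
  have t6 : 0 < 1 / e := by positivity
  have hT1 : 1 ≤ T := by rw [hT]; linarith
  have hT0 : 0 < T := by linarith
  have hTK : (K : ℝ) ^ 2 / T ≤ e / 48 := by
    have h1 : 48 * (K : ℝ) ^ 2 / e ≤ T := by rw [hT]; linarith
    rw [div_le_iff₀ hT0]
    rw [div_le_iff₀ he0] at h1
    linarith
  refine ⟨K, T, by exact_mod_cast hK2, hT1, ?_⟩
  intro X Y N D hX hXY hYX hYN hNX hDX
  have hX1 : (1 : ℝ) ≤ X := by linarith
  have hX0 : (0 : ℝ) < X := by linarith
  have hXn : 1 ≤ X := by exact_mod_cast hX1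
  have hXYr : (K : ℝ) * X ≤ Y := by exact_mod_cast hXY
  have hYXr : (Y : ℝ) ≤ K * K * X := by exact_mod_cast hYX
  have hYNr : (K : ℝ) * Y ≤ N := by exact_mod_cast hYN
  have hXY' : (X : ℝ) ≤ Y := (le_mul_of_one_le_left hX0.le (by linarith)).trans hXYr
  have hXYn : X ≤ Y := by exact_mod_cast hXY'
  have hY0 : (0 : ℝ) < Y := by linarith
  have hYN' : (Y : ℝ) ≤ N := (le_mul_of_one_le_left hY0.le (by linarith)).trans hYNr
  have hN0 : (0 : ℝ) < N := by linarith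
  have hD0 : (0 : ℝ) < D := by
    by_contra h
    have h1 : (D : ℝ) = 0 := le_antisymm (not_lt.1 h) (Nat.cast_nonneg _)
    rw [h1, zero_mul] at hDX
    have : 0 < T * N := by positivity
    linarith
  have hD1 : 1 ≤ D := by exact_mod_cast hD0
  set lam : ℝ := Real.log ((Y : ℝ) / X) with hlam
  set L : ℝ := Real.log Y with hL
  have hKlam : 1 / e ≤ lam := by
    rw [hlam, Real.le_log_iff_exp_le (by positivity), le_div_iff₀ hX0]
    refine le_trans (mul_le_mul_of_nonneg_right ?_ hX0.le) hXYr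
    linarith
  have hlam1 : 1 ≤ e * lam := by
    rw [div_le_iff₀ he0] at hKlam
    linarith
  have h1e : 1 ≤ 1 / e := by
    rw [le_div_iff₀ he0]
    linarith
  have hlam1' : 1 ≤ lam := h1e.trans hKlam
  have hL0 : 0 ≤ L := Real.log_nonneg (by linarith)
  have hlX : 2 * Real.log K / e ≤ Real.log X := by
    rw [Real.le_log_iff_exp_le hX0]
    linarith
  have hlX2 : 2 * Real.log K ≤ e * Real.log X := by
    rw [div_le_iff₀ he0] at hlX
    linarith
  have hLX : L ≤ Real.log X + 2 * Real.log K := by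
    have h3 := Real.log_le_log hY0 hYXr
    rw [Real.log_mul (by positivity) hX0.ne', Real.log_mul hK0.ne' hK0.ne'] at h3
    rw [hL]; linarith
  have hlXL : Real.log X ≤ L := Real.log_le_log hX0 hXY'
  have hlow : (1 - e) * L ≤ Real.log X := by nlinarith only [hlX2, hLX, hlXL, he0]
  have hlN : Real.log N ≤ 2 * L := by
    have h1 : (N : ℝ) ≤ (Y : ℝ) ^ 2 := by
      calc (N : ℝ) ≤ (X : ℝ) ^ (2 - ε) := hNX
        _ ≤ (X : ℝ) ^ (2 : ℝ) := Real.rpow_le_rpow_of_exponent_le hX1 (by linarith)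
        _ = (X : ℝ) ^ 2 := by norm_num
        _ ≤ (Y : ℝ) ^ 2 := by gcongr
    have h2 := Real.log_le_log hN0 h1
    rw [Real.log_pow] at h2
    exact_mod_cast h2
  -- the two parts
  have hden := den X Y N D hXn hD1
  have hsplit : ∑ m ∈ Icc 1 (Y / D), (1 / (m : ℝ) ^ 2) *
        ∑ q ∈ (Ioc (X / m) (Y / m)).filter (fun q => D ≤ q), (1 / (q : ℝ) ^ 2) * TS N q ≤
      ∑ m ∈ Icc 1 M, (1 / (m : ℝ) ^ 2) * ∑ q ∈ Ioc (X / m) (Y / m), (1 / (q : ℝ) ^ 2) * TS N q +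
      ∑ m ∈ Ioc M (Y / D), (1 / (m : ℝ) ^ 2) *
        ∑ q ∈ (Ioc (X / m) (Y / m)).filter (fun q => D ≤ q), (1 / (q : ℝ) ^ 2) * TS N q := by
    have hnn : ∀ m : ℕ, 0 ≤ (1 / (m : ℝ) ^ 2) *
        ∑ q ∈ (Ioc (X / m) (Y / m)).filter (fun q => D ≤ q), (1 / (q : ℝ) ^ 2) * TS N q := fun m =>
      mul_nonneg (by positivity) (sum_nonneg fun q _ => mul_nonneg (by positivity) (TS_nonneg N q))
    have h1 : ∑ m ∈ Icc 1 (Y / D), (1 / (m : ℝ) ^ 2) *
        ∑ q ∈ (Ioc (X / m) (Y / m)).filter (fun q => D ≤ q), (1 / (q : ℝ) ^ 2) * TS N q ≤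
        ∑ m ∈ Icc 1 M ∪ Ioc M (Y / D), (1 / (m : ℝ) ^ 2) *
        ∑ q ∈ (Ioc (X / m) (Y / m)).filter (fun q => D ≤ q), (1 / (q : ℝ) ^ 2) * TS N q := by
      refine sum_le_sum_of_subset_of_nonneg ?_ fun m _ _ => hnn m
      intro m hm
      rw [mem_Icc] at hm
      rw [mem_union, mem_Icc, mem_Ioc]
      omega
    have hdj : Disjoint (Icc 1 M) (Ioc M (Y / D)) := by
      rw [disjoint_left]
      intro m hm hm'
      rw [mem_Icc] at hm
      rw [mem_Ioc] at hm'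
      omega
    rw [sum_union hdj] at h1
    refine h1.trans (add_le_add ?_ le_rfl)
    refine sum_le_sum fun m _ => mul_le_mul_of_nonneg_left ?_ (by positivity)
    exact sum_le_sum_of_subset_of_nonneg (filter_subset _ _) fun q _ _ =>
      mul_nonneg (by positivity) (TS_nonneg N q)
  have hmain := mainpart e K₁ he0 he1 hK₁ hb X Y N M hM1 (by
      have h1 : 2 * (M : ℝ) / e ≤ X := by linarith
      rw [div_le_iff₀ he0] at h1
      linarith) (by linarith) (by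
      refine le_trans (mul_le_mul_of_nonneg_right ?_ hX0.le) hXYr
      linarith) (by
      refine le_trans (mul_le_mul_of_nonneg_right ?_ hY0.le) hYNr
      linarith) (hx2 (X : ℝ) (by
      have := le_abs_self x2
      linarith)) (hNX.trans (Real.rpow_le_rpow_of_exponent_le hX1 (by rw [he]; linarith))) hlam1
  have hS := lam_sq N (by
    have h1 := (hpsi (N : ℝ) (by linarith)).2
    linarith)
  have htail := tail X Y N D M K T (2 * N * Real.log N) hXn hD1 hM1 (by linarith) hT0 hYXr hDX hS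
    (by have := Real.log_natCast_nonneg N; positivity)
  have hB : 6 * (2 * N * Real.log N) * ((K : ℝ) ^ 2 / T + (K : ℝ) ^ 4 / (M : ℝ)) ≤
      N * (e * (L * lam)) := by
    have h1 : (K : ℝ) ^ 2 / T + (K : ℝ) ^ 4 / (M : ℝ) ≤ e / 24 := by linarith
    have h2 : 0 ≤ Real.log N := Real.log_natCast_nonneg N
    calc 6 * (2 * N * Real.log N) * ((K : ℝ) ^ 2 / T + (K : ℝ) ^ 4 / (M : ℝ)) ≤
          6 * (2 * N * (2 * L)) * (e / 24) := by gcongr
      _ = N * (e * (L * 1)) := by ring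
      _ ≤ N * (e * (L * lam)) := by gcongr
  have hEX := low_EX X Y e he0 hXn hXYn (by
    have h1 : 1 / e ≤ X := by linarith
    rw [div_le_iff₀ he0] at h1
    linarith) hlam1'
  have hfin := numfin e lam L (Real.log X) (EX X Y)
    ((1 + e) ^ 2 * (L * lam)) (e * (L * lam)) he0 he1 (by linarith) hL0 le_rfl le_rfl hlow hEX
  have h16 : 1 + 16 * e = 1 + ε := by rw [he]; ring
  rw [h16] at hfin
  unfold LG
  calc _ ≤ _ := hden
    _ ≤ _ := hsplit
    _ ≤ (1 + e) ^ 2 * (N * (L * lam)) + N * (e * (L * lam)) := add_le_add hmain (htail.trans hB)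
    _ = N * ((1 + e) ^ 2 * (L * lam) + e * (L * lam)) := by ring
    _ ≤ N * ((1 + ε) * EX X Y) := mul_le_mul_of_nonneg_left hfin hN0.le
    _ = _ := by ring

theorem LG_split (X Z Y N D : ℕ) (h1 : X ≤ Z) (h2 : Z ≤ Y) :
    LG X Y N D = LG X Z N D + LG Z Y N D := by
  unfold LG
  exact (Finset.sum_Ioc_consecutive _ h1 h2).symm

theorem EX_split (X Z Y : ℕ) (h1 : X ≤ Z) (h2 : Z ≤ Y) : EX X Y = EX X Z + EX Z Y := by
  unfold EX
  exact (Finset.sum_Ioc_consecutive _ h1 h2).symm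

theorem main (hblk : ∀ e : ℝ, 0 < e → e ≤ 1 → ∃ K : ℝ, 1 ≤ K ∧ SBlk e K)
    (ε : ℝ) (hε : 0 < ε) (hε1 : ε ≤ 1) : ∃ T : ℝ, 1 ≤ T ∧
    ∀ X Y N D : ℕ, T ≤ X → T * X ≤ Y → T * Y ≤ N → (N : ℝ) ≤ (X : ℝ) ^ (2 - ε) → T * N ≤ D * X →
    LG X Y N D ≤ (1 + ε) * (N * EX X Y) := by
  obtain ⟨K, T₁, hK2, hT₁, hs⟩ := short hblk ε hε hε1
  have hK : 1 ≤ K := by omega
  have hKr : (1 : ℝ) ≤ K := by exact_mod_cast hK
  refine ⟨max K T₁, hKr.trans (le_max_left _ _), ?_⟩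
  intro X Y N D hX hXY hYN hNX hDX
  have a1 : (K : ℝ) * X ≤ Y := le_trans (mul_le_mul_of_nonneg_right (le_max_left _ _)
    (by positivity)) hXY
  have a2 : (K : ℝ) * Y ≤ N := le_trans (mul_le_mul_of_nonneg_right (le_max_left _ _)
    (by positivity)) hYN
  have a3 : T₁ * N ≤ D * X := le_trans (mul_le_mul_of_nonneg_right (le_max_right _ _)
    (by positivity)) hDX
  have b1 : K * X ≤ Y := by exact_mod_cast a1
  have b2 : K * Y ≤ N := by exact_mod_cast a2
  have b0 : T₁ ≤ X := (le_max_right _ _).trans hX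
  have b00 : K ≤ X := by
    have := (le_max_left _ _).trans hX
    exact_mod_cast this
  have key : ∀ m X : ℕ, Y - X ≤ m → T₁ ≤ X → K ≤ X → K * X ≤ Y → (N : ℝ) ≤ (X : ℝ) ^ (2 - ε) →
      T₁ * N ≤ D * X → LG X Y N D ≤ (1 + ε) * (N * EX X Y) := by
    intro m
    induction m with
    | zero =>
      intro X h1 h2 h3 h4 h5 h6
      have h7 : Y ≤ X := by omega
      exact hs X Y N D h2 h4 (h7.trans (by nlinarith)) b2 h5 h6
    | succ m ih =>
      intro X h1 h2 h3 h4 h5 h6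
      by_cases h7 : Y ≤ K * K * X
      · exact hs X Y N D h2 h4 h7 b2 h5 h6
      · push Not at h7
        have hX1 : 1 ≤ X := hK.trans h3
        have hXZ : X ≤ K * X := Nat.le_mul_of_pos_left X hK
        have hXZr : (X : ℝ) ≤ ((K * X : ℕ) : ℝ) := by exact_mod_cast hXZ
        have h8 : K * (K * X) ≤ Y := by rw [← mul_assoc]; exact h7.le
        rw [LG_split X (K * X) Y N D hXZ h4, EX_split X (K * X) Y hXZ h4]
        have h9 := hs X (K * X) N D h2 le_rfl (by nlinarith)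
          (h8.trans ((Nat.le_mul_of_pos_left Y hK).trans b2)) h5 h6
        have h10 := ih (K * X) (by
          have : X + 1 ≤ K * X := by nlinarith
          omega) (h2.trans hXZr) (h3.trans hXZ) h8 (h5.trans (by
          apply Real.rpow_le_rpow (by positivity) hXZr (by linarith))) (h6.trans (by
          exact mul_le_mul_of_nonneg_left hXZr (by positivity)))
        calc _ ≤ (1 + ε) * (N * EX X (K * X)) + (1 + ε) * (N * EX (K * X) Y) := add_le_add h9 h10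
          _ = _ := by ring
  exact key (Y - X) X le_rfl b0 b00 b1 hNX a3

end Pool.Agent.Helper88.SU
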