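import Pool.Agent.Helper88.SU.Short

/-! One block of moduli: the sharp upper bound, given the bound for exponential sums. -/

set_option autoImplicit false

open Finset

namespace Pool.Agent.Helper88.SU

open Pool.Agent.Helper88.LC H385 H385.BV
open ArithmeticFunction (vonMangoldt)

/-- the sharp mean square estimate at reduced fractions, with precision `e` in the range `N ≤ X^(2-e)` -/
def SBlk (e K : ℝ) : Prop := ∀ X Y N : ℕ,
    K ≤ X → K * X ≤ Y → K * Y ≤ N → (N : ℝ) ≤ (X : ℝ) ^ (2 - e) →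
    ∑ q ∈ Finset.Ioc X Y, (1 / (q : ℝ) ^ 2) * TS N q ≤
      (1 + e) * (N * (Real.log Y * (c0 * Real.log ((Y : ℝ) / X))))

/-- the main part over `m` -/
theorem mainpart (e K₁ : ℝ) (he : 0 < e) (he1 : e ≤ 1 / 16) (hK1 : 1 ≤ K₁) (h : SBlk e K₁)
    (X Y N M : ℕ) (hM : 1 ≤ M) (hXM : 2 * (M : ℝ) ≤ e * X) (hXK : 2 * M * K₁ ≤ X)
    (hXY : 2 * K₁ * X ≤ Y) (hYN : K₁ * Y ≤ N) (hXp : (4 * (M : ℝ)) ^ 2 ≤ (X : ℝ) ^ e)
    (hNX : (N : ℝ) ≤ (X : ℝ) ^ (2 - 2 * e)) (hlam : 1 ≤ e * Real.log ((Y : ℝ) / X)) :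
    ∑ m ∈ Icc 1 M, (1 / (m : ℝ) ^ 2) * ∑ q ∈ Ioc (X / m) (Y / m), (1 / (q : ℝ) ^ 2) * TS N q ≤
      (1 + e) ^ 2 * (N * (Real.log Y * Real.log ((Y : ℝ) / X))) := by
  have hc0 : 0 < c0 := by unfold c0; positivity
  have hM0 : (1 : ℝ) ≤ M := by exact_mod_cast hM
  have hX0 : (0 : ℝ) < X := by nlinarith
  have hXn : 1 ≤ X := by exact_mod_cast (by
    have : (0 : ℝ) < X := hX0
    exact_mod_cast this : 0 < X)
  have hX1 : (1 : ℝ) ≤ X := by exact_mod_cast hXn
  have hXYr : (X : ℝ) ≤ Y := by nlinarith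
  have hXYn : X ≤ Y := by exact_mod_cast hXYr
  have hY0 : (0 : ℝ) < Y := by linarith
  have hN0 : (0 : ℝ) ≤ N := Nat.cast_nonneg _
  set lam : ℝ := Real.log ((Y : ℝ) / X) with hlamd
  have hlam0 : 0 < lam := by
    by_contra hc
    push Not at hc
    nlinarith
  have hL0 : 0 ≤ Real.log Y := Real.log_nonneg (by linarith)
  have hterm : ∀ m ∈ Icc 1 M, (1 / (m : ℝ) ^ 2) *
      ∑ q ∈ Ioc (X / m) (Y / m), (1 / (q : ℝ) ^ 2) * TS N q ≤
      (1 / (m : ℝ) ^ 2) * (c0 * ((1 + e) ^ 2 * (N * (Real.log Y * lam)))) := by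
    intro m hm
    rw [mem_Icc] at hm
    have hm1 : 1 ≤ m := hm.1
    have hm0 : (0 : ℝ) < m := by exact_mod_cast hm1
    have hmM : (m : ℝ) ≤ M := by exact_mod_cast hm.2
    refine mul_le_mul_of_nonneg_left ?_ (by positivity)
    -- X / m is at least X / (2 m)
    have hlow : (X : ℝ) / (2 * m) ≤ ((X / m : ℕ) : ℝ) := by
      have h3 : (X : ℝ) < m * ((X / m : ℕ) : ℝ) + m := by
        have := Nat.lt_mul_div_succ X hm1
        have h4 : X < m * (X / m + 1) := this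
        have h5 : (X : ℝ) < ((m * (X / m + 1) : ℕ) : ℝ) := by exact_mod_cast h4
        push_cast at h5
        linarith
      rw [div_le_iff₀ (by positivity)]
      nlinarith
    have hup : ((X / m : ℕ) : ℝ) ≤ X / m := Nat.cast_div_le
    have hKX : K₁ ≤ ((X / m : ℕ) : ℝ) := by
      refine le_trans ?_ hlow
      rw [le_div_iff₀ (by positivity)]
      nlinarith
    have hXm1 : 1 ≤ X / m := by
      have : (1 : ℝ) ≤ ((X / m : ℕ) : ℝ) := hK1.trans hKX
      exact_mod_cast this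
    have hYlow : (Y : ℝ) / (2 * m) ≤ ((Y / m : ℕ) : ℝ) := by
      have h3 : (Y : ℝ) < m * ((Y / m : ℕ) : ℝ) + m := by
        have := Nat.lt_mul_div_succ Y hm1
        have h4 : Y < m * (Y / m + 1) := this
        have h5 : (Y : ℝ) < ((m * (Y / m + 1) : ℕ) : ℝ) := by exact_mod_cast h4
        push_cast at h5
        linarith
      rw [div_le_iff₀ (by positivity)]
      nlinarith
    have hKXY : K₁ * ((X / m : ℕ) : ℝ) ≤ ((Y / m : ℕ) : ℝ) := by
      calc K₁ * ((X / m : ℕ) : ℝ) ≤ K₁ * (X / m) := mul_le_mul_of_nonneg_left hup (by linarith)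
        _ = (2 * K₁ * X) / (2 * m) := by field_simp
        _ ≤ Y / (2 * m) := by gcongr
        _ ≤ _ := hYlow
    have hYmY : ((Y / m : ℕ) : ℝ) ≤ Y := by exact_mod_cast Nat.div_le_self Y m
    have hKYN : K₁ * ((Y / m : ℕ) : ℝ) ≤ N :=
      (mul_le_mul_of_nonneg_left hYmY (by linarith)).trans hYN
    have hNp : (N : ℝ) ≤ ((X / m : ℕ) : ℝ) ^ (2 - e) := by
      have h4 : (X : ℝ) ^ (2 - 2 * e) ≤ ((X : ℝ) / (2 * m)) ^ (2 - e) := by
        rw [Real.div_rpow hX0.le (by positivity), le_div_iff₀ (by positivity)]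
        have h5 : (2 * (m : ℝ)) ^ (2 - e) ≤ (X : ℝ) ^ e := by
          calc (2 * (m : ℝ)) ^ (2 - e) ≤ (4 * (M : ℝ)) ^ (2 - e) :=
                Real.rpow_le_rpow (by positivity) (by linarith) (by linarith)
            _ ≤ (4 * (M : ℝ)) ^ (2 : ℝ) :=
                Real.rpow_le_rpow_of_exponent_le (by linarith) (by linarith)
            _ = (4 * (M : ℝ)) ^ 2 := by norm_num
            _ ≤ _ := hXp
        calc (X : ℝ) ^ (2 - 2 * e) * (2 * (m : ℝ)) ^ (2 - e) ≤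
              (X : ℝ) ^ (2 - 2 * e) * (X : ℝ) ^ e := by gcongr
          _ = (X : ℝ) ^ (2 - e) := by
              rw [← Real.rpow_add hX0]
              congr 1
              ring
      exact hNX.trans (h4.trans (Real.rpow_le_rpow (by positivity) hlow (by linarith)))
    have h5 := h (X / m) (Y / m) N hKX hKXY hKYN hNp
    have h6 := ratio X Y m e he (by linarith) hm1 (by linarith) hXYn hXm1
    have hYm1 : (1 : ℝ) ≤ ((Y / m : ℕ) : ℝ) := by
      have : (1 : ℝ) ≤ ((X / m : ℕ) : ℝ) := hK1.trans hKX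
      nlinarith
    have h7 : Real.log ((Y / m : ℕ) : ℝ) ≤ Real.log Y := Real.log_le_log (by linarith) hYmY
    have h7' : 0 ≤ Real.log ((Y / m : ℕ) : ℝ) := Real.log_nonneg hYm1
    have h8 : Real.log (((Y / m : ℕ) : ℝ) / ((X / m : ℕ) : ℝ)) ≤ (1 + e) * lam := by
      refine h6.trans ?_
      rw [← hlamd]
      nlinarith
    calc ∑ q ∈ Ioc (X / m) (Y / m), (1 / (q : ℝ) ^ 2) * TS N q ≤
          (1 + e) * (N * (Real.log ((Y / m : ℕ) : ℝ) *
            (c0 * Real.log (((Y / m : ℕ) : ℝ) / ((X / m : ℕ) : ℝ))))) := h5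
      _ ≤ (1 + e) * (N * (Real.log Y * (c0 * ((1 + e) * lam)))) := by
          have h9 : Real.log ((Y / m : ℕ) : ℝ) *
            (c0 * Real.log (((Y / m : ℕ) : ℝ) / ((X / m : ℕ) : ℝ))) ≤
            Real.log Y * (c0 * ((1 + e) * lam)) := by
            calc Real.log ((Y / m : ℕ) : ℝ) *
                (c0 * Real.log (((Y / m : ℕ) : ℝ) / ((X / m : ℕ) : ℝ))) ≤
                Real.log ((Y / m : ℕ) : ℝ) * (c0 * ((1 + e) * lam)) :=
                  mul_le_mul_of_nonneg_left (mul_le_mul_of_nonneg_left h8 hc0.le) h7'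
              _ ≤ _ := mul_le_mul_of_nonneg_right h7 (by positivity)
          gcongr
      _ = _ := by ring
  refine (sum_le_sum hterm).trans ?_
  rw [← sum_mul]
  have h1 := c0_zeta M
  have h2 : 0 ≤ (1 + e) ^ 2 * (N * (Real.log Y * lam)) := by positivity
  calc (∑ m ∈ Icc 1 M, 1 / (m : ℝ) ^ 2) * (c0 * ((1 + e) ^ 2 * (N * (Real.log Y * lam)))) =
        (c0 * ∑ m ∈ Icc 1 M, 1 / (m : ℝ) ^ 2) * ((1 + e) ^ 2 * (N * (Real.log Y * lam))) := by ring
    _ ≤ 1 * ((1 + e) ^ 2 * (N * (Real.log Y * lam))) := mul_le_mul_of_nonneg_right h1 h2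
    _ = _ := by ring

end Pool.Agent.Helper88.SU
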