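import Pool.Agent.Helper88.SU.Den

/-! One block of moduli. -/

set_option autoImplicit false

open Finset

namespace Pool.Agent.Helper88.SU

open Pool.Agent.Helper88.LC H385 H385.BV
open ArithmeticFunction (vonMangoldt)

theorem c0_zeta (M : ℕ) : c0 * ∑ m ∈ Icc 1 M, 1 / (m : ℝ) ^ 2 ≤ 1 := by
  have h : ∑ m ∈ Icc 1 M, 1 / (m : ℝ) ^ 2 ≤ Real.pi ^ 2 / 6 :=
    sum_le_hasSum _ (fun i _ => by positivity) hasSum_zeta_two
  have hpi : 0 < Real.pi ^ 2 := by positivity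
  calc c0 * ∑ m ∈ Icc 1 M, 1 / (m : ℝ) ^ 2 ≤ c0 * (Real.pi ^ 2 / 6) :=
        mul_le_mul_of_nonneg_left h (by unfold c0; positivity)
    _ = 1 := by unfold c0; field_simp

theorem tail_sq (M B : ℕ) (hM : 1 ≤ M) : ∑ m ∈ Ioc M B, 1 / (m : ℝ) ^ 2 ≤ 1 / (M : ℝ) := by
  have key : ∀ B : ℕ, M ≤ B → ∑ m ∈ Ioc M B, 1 / (m : ℝ) ^ 2 ≤ 1 / (M : ℝ) - 1 / (B : ℝ) := by
    intro B hB
    induction B, hB using Nat.le_induction with
    | base => simp
    | succ B hB ih =>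
      rw [sum_Ioc_succ_top (by omega)]
      have hB0 : (0 : ℝ) < B := by exact_mod_cast (by omega : 0 < B)
      have h1 : 1 / ((B + 1 : ℕ) : ℝ) ^ 2 ≤ 1 / B - 1 / ((B + 1 : ℕ) : ℝ) := by
        push_cast
        rw [div_sub_div _ _ hB0.ne' (by positivity), div_le_div_iff₀ (by positivity) (by positivity)]
        nlinarith
      linarith
  rcases le_total M B with h | h
  · have := key B h
    have h2 : (0 : ℝ) ≤ 1 / (B : ℝ) := by positivity
    linarith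
  · rw [Ioc_eq_empty (by omega), sum_empty]
    positivity

theorem inv_sum (X Y : ℕ) (hX : 1 ≤ X) (hXY : X ≤ Y) :
    Real.log ((Y : ℝ) / X) - 1 / X ≤ ∑ k ∈ Ioc X Y, 1 / (k : ℝ) := by
  have hX0 : (0 : ℝ) < X := by exact_mod_cast hX
  have key : ∀ Y : ℕ, X ≤ Y → Real.log ((Y + 1 : ℝ) / (X + 1)) ≤ ∑ k ∈ Ioc X Y, 1 / (k : ℝ) := by
    intro Y hY
    induction Y, hY using Nat.le_induction with
    | base => simp
    | succ Y hY ih =>
      rw [sum_Ioc_succ_top (by omega)]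
      have hY0 : (0 : ℝ) < Y + 1 := by positivity
      have h1 : Real.log (((Y + 1 : ℕ) + 1 : ℝ) / (X + 1)) =
          Real.log ((Y + 1 : ℝ) / (X + 1)) + Real.log (((Y : ℝ) + 2) / (Y + 1)) := by
        rw [← Real.log_mul (by positivity) (by positivity)]
        congr 1
        push_cast
        field_simp
        ring
      have h2 : Real.log (((Y : ℝ) + 2) / (Y + 1)) ≤ 1 / ((Y + 1 : ℕ) : ℝ) := by
        have h3 := Real.log_le_sub_one_of_pos (x := ((Y : ℝ) + 2) / (Y + 1)) (by positivity)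
        have h4 : ((Y : ℝ) + 2) / (Y + 1) - 1 = 1 / ((Y + 1 : ℕ) : ℝ) := by
          push_cast
          field_simp
          ring
        linarith
      rw [h1]
      linarith
  have h1 := key Y hXY
  have hY0 : (0 : ℝ) < Y := by exact_mod_cast (by omega : 0 < Y)
  have h2 : Real.log ((Y : ℝ) / X) ≤ Real.log ((Y + 1 : ℝ) / (X + 1)) + Real.log ((X + 1 : ℝ) / X) := by
    rw [← Real.log_mul (by positivity) (by positivity)]
    apply Real.log_le_log (by positivity)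
    have : (Y + 1 : ℝ) / (X + 1) * ((X + 1) / X) = (Y + 1) / X := by field_simp
    rw [this]
    gcongr
    linarith
  have h3 : Real.log ((X + 1 : ℝ) / X) ≤ 1 / X := by
    have h4 := Real.log_le_sub_one_of_pos (x := (X + 1 : ℝ) / X) (by positivity)
    have h5 : (X + 1 : ℝ) / X - 1 = 1 / X := by field_simp; ring
    linarith
  linarith

/-- the ratio of the ends of the reduced interval -/
theorem ratio (X Y m : ℕ) (e : ℝ) (he : 0 < e) (he1 : e ≤ 1) (hm : 1 ≤ m) (hX : 2 * (m : ℝ) ≤ e * X)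
    (hXY : X ≤ Y) (hX1 : 1 ≤ X / m) :
    Real.log (((Y / m : ℕ) : ℝ) / ((X / m : ℕ) : ℝ)) ≤ Real.log ((Y : ℝ) / X) + e := by
  have hm0 : (0 : ℝ) < m := by exact_mod_cast hm
  have hX0 : (0 : ℝ) < X := by
    by_contra h
    have : (X : ℝ) = 0 := le_antisymm (not_lt.1 h) (Nat.cast_nonneg _)
    rw [this] at hX
    linarith
  have hXm : (1 : ℝ) ≤ ((X / m : ℕ) : ℝ) := by exact_mod_cast hX1
  have hXm0 : (0 : ℝ) < ((X / m : ℕ) : ℝ) := by linarith
  have hY0 : (0 : ℝ) < Y := lt_of_lt_of_le hX0 (by exact_mod_cast hXY)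
  have hYm1 : 1 ≤ Y / m := hX1.trans (Nat.div_le_div_right hXY)
  have hYm0 : (0 : ℝ) < ((Y / m : ℕ) : ℝ) := by exact_mod_cast (by omega : 0 < Y / m)
  have h1 : ((Y / m : ℕ) : ℝ) ≤ Y / m := Nat.cast_div_le
  have h2 : (X : ℝ) / m - 1 ≤ ((X / m : ℕ) : ℝ) := by
    have h3 : (X : ℝ) < m * ((X / m : ℕ) : ℝ) + m := by
      have := Nat.lt_mul_div_succ X hm
      have h4 : X < m * (X / m + 1) := this
      have h5 : (X : ℝ) < ((m * (X / m + 1) : ℕ) : ℝ) := by exact_mod_cast h4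
      push_cast at h5
      linarith
    rw [sub_le_iff_le_add, div_le_iff₀ hm0]
    nlinarith
  have h3 : (1 - e / 2) * (X / m) ≤ ((X / m : ℕ) : ℝ) := by
    refine le_trans ?_ h2
    have h4 : 1 ≤ e / 2 * (X / m) := by
      rw [mul_div_assoc', le_div_iff₀ hm0]
      linarith
    linarith
  have h4 : ((Y / m : ℕ) : ℝ) / ((X / m : ℕ) : ℝ) ≤ (Y : ℝ) / X * (1 + e) := by
    rw [div_le_iff₀ hXm0]
    have h5 : (Y : ℝ) / m ≤ (Y : ℝ) / X * (1 + e) * ((1 - e / 2) * (X / m)) := by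
      have h6 : (Y : ℝ) / X * (1 + e) * ((1 - e / 2) * (X / m)) = ((1 + e) * (1 - e / 2)) * (Y / m) := by
        field_simp
      rw [h6]
      have h7 : 1 ≤ (1 + e) * (1 - e / 2) := by nlinarith
      have h8 : 0 < (Y : ℝ) / m := by positivity
      nlinarith
    calc ((Y / m : ℕ) : ℝ) ≤ Y / m := h1
      _ ≤ _ := h5
      _ ≤ _ := mul_le_mul_of_nonneg_left h3 (by positivity)
  calc Real.log (((Y / m : ℕ) : ℝ) / ((X / m : ℕ) : ℝ)) ≤ Real.log ((Y : ℝ) / X * (1 + e)) :=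
        Real.log_le_log (by positivity) h4
    _ = Real.log ((Y : ℝ) / X) + Real.log (1 + e) :=
        Real.log_mul (by positivity) (by positivity)
    _ ≤ _ := by
        have := Real.log_le_sub_one_of_pos (x := 1 + e) (by positivity)
        linarith

/-- the tail over `m` -/
theorem tail (X Y N D M : ℕ) (K T S : ℝ) (hX : 1 ≤ X) (hD : 1 ≤ D) (hM : 1 ≤ M) (hK : 1 ≤ K)
    (hT : 0 < T) (hYX : (Y : ℝ) ≤ K * K * X) (hDX : T * N ≤ D * X)
    (hS : ∑ n ∈ Ioc 0 N, vonMangoldt n ^ 2 ≤ S) (hS0 : 0 ≤ S) :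
    ∑ m ∈ Ioc M (Y / D), (1 / (m : ℝ) ^ 2) *
        ∑ q ∈ (Ioc (X / m) (Y / m)).filter (fun q => D ≤ q), (1 / (q : ℝ) ^ 2) * TS N q ≤
      6 * S * (K ^ 2 / T + K ^ 4 / (M : ℝ)) := by
  have hX0 : (0 : ℝ) < X := by exact_mod_cast hX
  have hD0 : (0 : ℝ) < D := by exact_mod_cast hD
  have h1 : ∀ m ∈ Ioc M (Y / D), (1 / (m : ℝ) ^ 2) *
        ∑ q ∈ (Ioc (X / m) (Y / m)).filter (fun q => D ≤ q), (1 / (q : ℝ) ^ 2) * TS N q ≤
      6 * S * ((N : ℝ) / X ^ 2 + K ^ 4 * (1 / (m : ℝ) ^ 2)) := by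
    intro m hm
    rw [mem_Ioc] at hm
    have hm1 : 1 ≤ m := by omega
    have hm0 : (0 : ℝ) < m := by exact_mod_cast hm1
    have ha0 : (0 : ℝ) < (X : ℝ) / m := by positivity
    have h2 := ls_block N (X / m) (Y / m) ((X : ℝ) / m) ha0 (fun q hq => by
      rw [Nat.div_lt_iff_lt_mul hm1] at hq
      rw [div_le_iff₀ hm0]
      exact_mod_cast hq.le)
    have h3 : ∑ q ∈ (Ioc (X / m) (Y / m)).filter (fun q => D ≤ q), (1 / (q : ℝ) ^ 2) * TS N q ≤
        ∑ q ∈ Ioc (X / m) (Y / m), (1 / (q : ℝ) ^ 2) * TS N q :=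
      sum_le_sum_of_subset_of_nonneg (filter_subset _ _) fun q _ _ =>
        mul_nonneg (by positivity) (TS_nonneg N q)
    have h4 : ((Y / m : ℕ) : ℝ) ≤ K * K * (X / m) := by
      calc ((Y / m : ℕ) : ℝ) ≤ Y / m := Nat.cast_div_le
        _ ≤ K * K * X / m := by gcongr
        _ = _ := by ring
    have h5 : ((Y / m : ℕ) : ℝ) ^ 2 ≤ K ^ 4 * ((X : ℝ) / m) ^ 2 := by
      calc ((Y / m : ℕ) : ℝ) ^ 2 ≤ (K * K * (X / m)) ^ 2 := by gcongr
        _ = _ := by ring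
    calc (1 / (m : ℝ) ^ 2) * ∑ q ∈ (Ioc (X / m) (Y / m)).filter (fun q => D ≤ q),
          (1 / (q : ℝ) ^ 2) * TS N q ≤
          (1 / (m : ℝ) ^ 2) * ((1 / ((X : ℝ) / m) ^ 2) * (6 * (N + ((Y / m : ℕ) : ℝ) ^ 2) *
            ∑ n ∈ Ioc 0 N, vonMangoldt n ^ 2)) :=
          mul_le_mul_of_nonneg_left (h3.trans h2) (by positivity)
      _ ≤ (1 / (m : ℝ) ^ 2) * ((1 / ((X : ℝ) / m) ^ 2) *
            (6 * (N + K ^ 4 * ((X : ℝ) / m) ^ 2) * S)) := by
          gcongr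
      _ = _ := by
          field_simp
  refine (sum_le_sum h1).trans ?_
  rw [← mul_sum]
  refine mul_le_mul_of_nonneg_left ?_ (by positivity)
  rw [sum_add_distrib, ← mul_sum, sum_const, nsmul_eq_mul]
  refine add_le_add ?_ ?_
  · have h2 : ((Ioc M (Y / D)).card : ℝ) ≤ Y / D := by
      rw [Nat.card_Ioc]
      calc ((Y / D - M : ℕ) : ℝ) ≤ ((Y / D : ℕ) : ℝ) := by exact_mod_cast Nat.sub_le _ _
        _ ≤ Y / D := Nat.cast_div_le
    have hN0 : (0 : ℝ) ≤ N := Nat.cast_nonneg _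
    calc ((Ioc M (Y / D)).card : ℝ) * ((N : ℝ) / X ^ 2) ≤ (Y / D) * ((N : ℝ) / X ^ 2) := by gcongr
      _ ≤ (K * K * X / D) * ((N : ℝ) / X ^ 2) := by gcongr
      _ = K ^ 2 * (N / (D * X)) := by field_simp
      _ ≤ K ^ 2 * (1 / T) := by
          refine mul_le_mul_of_nonneg_left ?_ (by positivity)
          rw [div_le_div_iff₀ (by positivity) hT]
          linarith
      _ = _ := by ring
  · calc K ^ 4 * ∑ m ∈ Ioc M (Y / D), 1 / (m : ℝ) ^ 2 ≤ K ^ 4 * (1 / (M : ℝ)) :=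
          mul_le_mul_of_nonneg_left (tail_sq M (Y / D) hM) (by positivity)
      _ = _ := by ring

end Pool.Agent.Helper88.SU
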